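import Pool.Agent.Helper78.Pic.Green

set_option autoImplicit false

namespace Pool.Agent.Helper78.Pic

open Pool.Agent.Helper10.Pic Pool.Agent.Helper86.Pic
open MeasureTheory Topology

/-- complex version of a real function -/
noncomputable def cc (η : Pt → ℝ) (p : Pt) : ℂ := (η p : ℂ)

/-- the first order operator `η ↦ ∑ conj u_i <grad u_i, grad η>` -/
noncomputable def Gop {ι : Type} [Fintype ι] (u : ι → Pt → ℂ) (v : Pt → ℂ) (p : Pt) : ℂ :=
  ∑ i, (starRingEnd ℂ) (u i p) * gdot (u i) v p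

theorem contDiffOn_cc {m : WithTop ℕ∞} {η : Pt → ℝ} {s : Set Pt} (h : ContDiffOn ℝ m η s) :
    ContDiffOn ℝ m (cc η) s :=
  Complex.ofRealCLM.contDiff.comp_contDiffOn h

theorem contDiff_cc {m : WithTop ℕ∞} {η : Pt → ℝ} (h : ContDiff ℝ m η) : ContDiff ℝ m (cc η) :=
  Complex.ofRealCLM.contDiff.comp h

theorem contDiffOn_conj {m : WithTop ℕ∞} {f : Pt → ℂ} {s : Set Pt} (h : ContDiffOn ℝ m f s) :
    ContDiffOn ℝ m (fun p => (starRingEnd ℂ) (f p)) s :=
  Complex.conjCLE.contDiff.comp_contDiffOn h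

theorem pd_conj (e : Pt) {f : Pt → ℂ} {p : Pt} (hf : DifferentiableAt ℝ f p) :
    pd e (fun q => (starRingEnd ℂ) (f q)) p = (starRingEnd ℂ) (pd e f p) := by
  unfold pd
  have h := (Complex.conjCLE.toContinuousLinearMap.hasFDerivAt (x := f p)).comp p hf.hasFDerivAt
  have h2 : fderiv ℝ (fun q => (starRingEnd ℂ) (f q)) p = _ := h.fderiv
  rw [h2]
  rfl

theorem gdot_mul {u f h : Pt → ℂ} {p : Pt} (hf : DifferentiableAt ℝ f p)
    (hh : DifferentiableAt ℝ h p) :
    gdot u (fun q => f q * h q) p = f p * gdot u h p + h p * gdot u f p := by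
  unfold gdot
  simp only [XX_eq, YY_eq, pd_mul _ hf hh]
  ring

theorem gdot_conj_self {u : Pt → ℂ} {p : Pt} (hu : DifferentiableAt ℝ u p) :
    gdot u (fun q => (starRingEnd ℂ) (u q)) p = (gsq u p : ℂ) := by
  unfold gdot gsq
  simp only [XX_eq, YY_eq, pd_conj _ hu, Complex.mul_conj, Complex.normSq_eq_norm_sq]
  push_cast
  rfl

theorem smooth1 {ι : Type} {u : ι → Pt → ℂ} (hS : Sys ι u) (i : ι) :
    ContDiffOn ℝ 1 (u i) SD := (hS.smooth i).of_le (by norm_num)

theorem continuousOn_Gop {ι : Type} [Fintype ι] {u : ι → Pt → ℂ}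
    (hu : ∀ i, ContDiffOn ℝ 1 (u i) SD) {v : Pt → ℂ} (hv : ContDiffOn ℝ 1 v SD) :
    ContinuousOn (Gop u v) SD := by
  unfold Gop
  refine continuousOn_finsetSum _ fun i _ => ?_
  exact (contDiffOn_conj (hu i)).continuousOn.mul (continuousOn_gdot (hu i) hv)

theorem Gop_congr {ι : Type} [Fintype ι] (u : ι → Pt → ℂ) {v w : Pt → ℂ} {p : Pt}
    (h : v =ᶠ[𝓝 p] w) : Gop u v p = Gop u w p := by
  unfold Gop
  refine Finset.sum_congr rfl fun i _ => ?_
  rw [gdot_congr (Filter.EventuallyEq.refl _ _) h]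

theorem Gop_mul {ι : Type} [Fintype ι] (u : ι → Pt → ℂ) {f h : Pt → ℂ} {p : Pt}
    (hf : DifferentiableAt ℝ f p) (hh : DifferentiableAt ℝ h p) :
    Gop u (fun q => f q * h q) p = f p * Gop u h p + h p * Gop u f p := by
  unfold Gop
  rw [Finset.mul_sum, Finset.mul_sum, ← Finset.sum_add_distrib]
  refine Finset.sum_congr rfl fun i _ => ?_
  rw [gdot_mul hf hh]
  ring

theorem Gop_off {ι : Type} [Fintype ι] (u : ι → Pt → ℂ) {v : Pt → ℂ} {p : Pt}
    (h : p ∉ tsupport v) : Gop u v p = 0 := by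
  unfold Gop
  refine Finset.sum_eq_zero fun i _ => ?_
  rw [gdot_zero_off h, mul_zero]

/-- invariance of the operator -/
theorem Gop_act (hDp : Dp) {ι : Type} [Fintype ι] {u : ι → Pt → ℂ} (hS : Sys ι u)
    {γ : V3 ≃ₗ[ℂ] V3} (hγ : γ ∈ Gam) {v : Pt → ℂ} {p : Pt} (hp : p ∈ SD)
    (hv : DifferentiableAt ℝ v (act γ p)) :
    Gop u v (act γ p) = Gop u (fun q => v (act γ q)) p := by
  obtain ⟨σ, hσ⟩ := hS.perm γ hγ
  unfold Gop
  rw [← Equiv.sum_comp σ (fun i => (starRingEnd ℂ) (u i p) * gdot (u i) (fun q => v (act γ q)) p)]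
  refine Finset.sum_congr rfl fun i _ => ?_
  rw [← hDp.gd γ hγ.1 p hp _ _ (differentiableAt_of (smooth1 hS i) (act_mem hγ.1 hp)) hv,
    hσ i p hp]
  congr 1
  refine gdot_congr ?_ (Filter.EventuallyEq.refl _ _)
  filter_upwards [isOpen_SD.mem_nhds hp] with q hq
  exact hσ i q hq

/-- interface to module DISC -/
def LF : Prop := ∀ p ∈ SD, ∀ C a : ℝ, 0 < a →
  ∃ U ∈ 𝓝 p, U ⊆ SD ∧ {γ : Gam | ∃ q ∈ U, act γ q ∈ Sieg C a}.Finite

/-- finiteness of the set of `γ` moving a compact set into the support of `κ` -/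
theorem finite_of_compact (hLF : LF) {K : Set Pt} (hK : IsCompact K)
    (hKU : K ⊆ SD) (C a : ℝ) (ha : 0 < a) :
    {γ : Gam | ∃ q ∈ K, act γ q ∈ Sieg C a}.Finite := by
  refine hK.induction_on
    (p := fun s => {γ : Gam | ∃ q ∈ s, act γ q ∈ Sieg C a}.Finite) ?_ ?_ ?_ ?_
  · simp
  · intro s t hst ht
    exact ht.subset fun γ ⟨q, hq, h⟩ => ⟨q, hst hq, h⟩
  · intro s t hs ht
    refine (hs.union ht).subset ?_
    rintro γ ⟨q, hq | hq, h⟩
    · exact Or.inl ⟨q, hq, h⟩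
    · exact Or.inr ⟨q, hq, h⟩
  · intro p hp
    obtain ⟨U, hU, -, hfin⟩ := hLF p (hKU hp) C a ha
    exact ⟨U, mem_nhdsWithin_of_mem_nhds hU, hfin⟩

/-- a closed box in the Siegel domain -/
def box (C a ρ : ℝ) : Set Pt := {p | ‖p.2‖ ≤ C ∧ |p.1.im| ≤ C ∧ a ≤ hgt p ∧ hgt p ≤ ρ}

theorem isClosed_box (C a ρ : ℝ) : IsClosed (box C a ρ) := by
  have h1 : IsClosed {p : Pt | ‖p.2‖ ≤ C} := isClosed_le (by fun_prop) continuous_const
  have h2 : IsClosed {p : Pt | |p.1.im| ≤ C} :=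
    isClosed_le (Complex.continuous_im.comp continuous_fst).abs continuous_const
  have h3 : IsClosed {p : Pt | a ≤ hgt p} := isClosed_le continuous_const continuous_hgt
  have h4 : IsClosed {p : Pt | hgt p ≤ ρ} := isClosed_le continuous_hgt continuous_const
  exact h1.inter (h2.inter (h3.inter h4))

theorem isCompact_box (C a ρ : ℝ) : IsCompact (box C a ρ) := by
  refine Metric.isCompact_of_isClosed_isBounded (isClosed_box C a ρ) ?_
  refine (Metric.isBounded_closedBall (x := (0 : Pt))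
    (r := |C| + (|a| + |ρ| + C ^ 2))).subset ?_
  intro p hp
  obtain ⟨h1, h2, h3, h4⟩ := hp
  rw [mem_closedBall_zero_iff, Prod.norm_def, max_le_iff]
  have hC : 0 ≤ C := (norm_nonneg _).trans h1
  have hC' : |C| = C := abs_of_nonneg hC
  have h5 : ‖p.2‖ ^ 2 ≤ C ^ 2 := pow_le_pow_left₀ (norm_nonneg _) h1 2
  have h6 := sq_nonneg ‖p.2‖
  have h7 : |p.1.re| ≤ |a| + |ρ| + C ^ 2 := by
    unfold hgt at h3 h4
    rw [abs_le]
    have g1 := le_abs_self ρ
    have g2 := abs_nonneg a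
    have g3 := neg_abs_le a
    have g4 := abs_nonneg ρ
    have g5 := sq_nonneg C
    constructor <;> linarith
  constructor
  · refine (Complex.norm_le_abs_re_add_abs_im _).trans ?_
    rw [hC']; linarith
  · have : 0 ≤ |a| + |ρ| + C ^ 2 := by positivity
    rw [hC']; linarith

theorem box_subset {C a ρ : ℝ} (ha : 0 < a) : box C a ρ ⊆ SD := fun _ hp =>
  lt_of_lt_of_le ha hp.2.2.1

theorem box_nhds {C a ρ : ℝ} (ha : 0 < a) {p : Pt} (hp : p ∈ box C a ρ) :
    box (C + 1) (a / 2) (ρ + 1) ∈ 𝓝 p := by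
  have h1 : {q : Pt | ‖q.2‖ < C + 1} ∩ ({q : Pt | |q.1.im| < C + 1} ∩
      ({q : Pt | a / 2 < hgt q} ∩ {q : Pt | hgt q < ρ + 1})) ∈ 𝓝 p := by
    refine IsOpen.mem_nhds ?_ ⟨?_, ?_, ?_, ?_⟩
    · exact (isOpen_lt (by fun_prop) continuous_const).inter
        ((isOpen_lt (Complex.continuous_im.comp continuous_fst).abs continuous_const).inter
          ((isOpen_lt continuous_const continuous_hgt).inter
            (isOpen_lt continuous_hgt continuous_const)))
    · have := hp.1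
      change ‖p.2‖ < C + 1
      linarith
    · have := hp.2.1
      change |p.1.im| < C + 1
      linarith
    · have := hp.2.2.1
      change a / 2 < hgt p
      linarith
    · have := hp.2.2.2
      change hgt p < ρ + 1
      linarith
  filter_upwards [h1] with q hq
  exact ⟨le_of_lt hq.1, le_of_lt hq.2.1, le_of_lt hq.2.2.1, le_of_lt hq.2.2.2⟩

end Pool.Agent.Helper78.Pic
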