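import Pool.Agent.Helper78.Pic.Energy2
import Pool.Agent.Helper86.Pic.REDA

set_option autoImplicit false

namespace Pool.Agent.Helper78.Pic

open Pool.Agent.Helper10.Pic Pool.Agent.Helper86.Pic
open MeasureTheory Topology
open scoped ComplexConjugate

/-- sum of squares -/
noncomputable def Af {ι : Type} [Fintype ι] (u : ι → Pt → ℂ) (p : Pt) : ℝ := ∑ i, ‖u i p‖ ^ 2
/-- sum of squared gradients -/
noncomputable def Bf {ι : Type} [Fintype ι] (u : ι → Pt → ℂ) (p : Pt) : ℝ := ∑ i, gsq (u i) p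

theorem Af_nonneg {ι : Type} [Fintype ι] (u : ι → Pt → ℂ) (p : Pt) : 0 ≤ Af u p :=
  Finset.sum_nonneg fun _ _ => by positivity

theorem gsq_nonneg {f : Pt → ℂ} {p : Pt} (hp : p ∈ SD) : 0 ≤ gsq f p := by
  have hp' : 0 < hgt p := hp
  unfold gsq; positivity

theorem Bf_nonneg {ι : Type} [Fintype ι] (u : ι → Pt → ℂ) {p : Pt} (hp : p ∈ SD) :
    0 ≤ Bf u p := Finset.sum_nonneg fun _ _ => gsq_nonneg hp

theorem continuousOn_Af {ι : Type} [Fintype ι] {u : ι → Pt → ℂ}
    (hu : ∀ i, ContDiffOn ℝ 1 (u i) SD) : ContinuousOn (Af u) SD := by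
  unfold Af
  exact continuousOn_finsetSum _ fun i _ => ((hu i).continuousOn.norm).pow 2

theorem continuousOn_gsq {u : Pt → ℂ} (hu : ContDiffOn ℝ 1 u SD) :
    ContinuousOn (gsq u) SD := by
  have h : ContinuousOn hgt SD := continuous_hgt.continuousOn
  exact ((h.pow 2).mul (((continuousOn_pd (1, 0) hu).norm.pow 2).add
      ((continuousOn_pd (Complex.I, 0) hu).norm.pow 2))).add
    (h.mul (((continuousOn_XX hu).norm.pow 2).add ((continuousOn_YY hu).norm.pow 2)))

theorem continuousOn_Bf {ι : Type} [Fintype ι] {u : ι → Pt → ℂ}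
    (hu : ∀ i, ContDiffOn ℝ 1 (u i) SD) : ContinuousOn (Bf u) SD := by
  unfold Bf
  exact continuousOn_finsetSum _ fun i _ => continuousOn_gsq (hu i)

/-- the localised energy identity -/
theorem energy_identity {ι : Type} [Fintype ι] {u : ι → Pt → ℂ}
    (hu : ∀ i, ContDiffOn ℝ 1 (u i) SD) {lam : ℂ} (heig : ∀ i, WeakEig lam (u i))
    {η : Pt → ℝ} (hη : ContDiff ℝ 1 η) {K : Set Pt} (hK : IsCompact K) (hKU : K ⊆ SD)
    (h0 : ∀ p, p ∉ K → η p = 0) :
    ∫ p, (Gop u (cc η) p + (η p : ℂ) * (Bf u p : ℂ)) ∂hyp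
      = lam * ∫ p, (η p : ℂ) * (Af u p : ℂ) ∂hyp := by
  have hts : tsupport η ⊆ K := closure_minimal (fun p hp => by
    by_contra h; exact hp (h0 p h)) hK.isClosed
  set φ : ι → Pt → ℂ := fun i p => cc η p * (starRingEnd ℂ) (u i p) with hφ
  have hcη : ContDiff ℝ 1 (cc η) := contDiff_cc hη
  have hφU : ∀ i, ContDiffOn ℝ 1 (φ i) SD := fun i =>
    hcη.contDiffOn.mul (contDiffOn_conj (hu i))
  have hφ0 : ∀ i, ∀ p, p ∉ K → φ i p = 0 := fun i p hp => by
    simp only [hφ, cc, h0 p hp]; simp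
  have hφC : ∀ i, ContDiff ℝ 1 (φ i) := fun i => contDiff_of_SD hK.isClosed hKU (hφU i) (hφ0 i)
  have hφc : ∀ i, HasCompactSupport (φ i) := fun i => HasCompactSupport.intro hK (hφ0 i)
  have hφs : ∀ i, tsupport (φ i) ⊆ K := fun i => closure_minimal (fun p hp => by
    by_contra h; exact hp (hφ0 i p h)) hK.isClosed
  have hw := fun i => heig i (φ i) (hφC i) (hφc i) ((hφs i).trans hKU)
  have hgd : ∀ i, ∀ p ∈ SD, gdot (u i) (φ i) p
      = (η p : ℂ) * (gsq (u i) p : ℂ) + (starRingEnd ℂ) (u i p) * gdot (u i) (cc η) p := by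
    intro i p hp
    have h1 : DifferentiableAt ℝ (cc η) p := hcη.differentiable one_ne_zero p
    have h2 : DifferentiableAt ℝ (fun q => (starRingEnd ℂ) (u i q)) p :=
      differentiableAt_of (contDiffOn_conj (hu i)) hp
    have h3 := gdot_mul (u := u i) h1 h2
    rw [gdot_conj_self (differentiableAt_of (hu i) hp)] at h3
    exact h3
  have hi1 : ∀ i, Integrable (fun p => gdot (u i) (φ i) p) hyp := fun i =>
    integrable_hyp hK hKU (continuousOn_gdot (hu i) (hφU i)) fun p hp =>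
      gdot_zero_off fun h => hp (hφs i h)
  have hi2 : ∀ i, Integrable (fun p => u i p * φ i p) hyp := fun i =>
    integrable_hyp hK hKU ((hu i).continuousOn.mul (hφU i).continuousOn) fun p hp => by
      rw [hφ0 i p hp, mul_zero]
  have e1' : ∫ p, (Gop u (cc η) p + (η p : ℂ) * (Bf u p : ℂ)) ∂hyp
      = ∑ i, ∫ p, gdot (u i) (φ i) p ∂hyp := by
    rw [← integral_finsetSum _ fun i _ => hi1 i]
    refine integral_congr_ae ?_
    filter_upwards [ae_hyp] with p hp
    unfold Gop Bf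
    push_cast
    rw [Finset.mul_sum, ← Finset.sum_add_distrib]
    refine Finset.sum_congr rfl fun i _ => ?_
    rw [hgd i p hp]
    ring
  have e2' : ∫ p, (η p : ℂ) * (Af u p : ℂ) ∂hyp = ∑ i, ∫ p, u i p * φ i p ∂hyp := by
    rw [← integral_finsetSum _ fun i _ => hi2 i]
    refine integral_congr_ae ?_
    filter_upwards [ae_hyp] with p hp
    unfold Af
    push_cast
    rw [Finset.mul_sum]
    refine Finset.sum_congr rfl fun i _ => ?_
    simp only [hφ, cc]
    rw [← Complex.mul_conj']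
    ring
  rw [e1', e2', Finset.mul_sum]
  exact Finset.sum_congr rfl fun i _ => hw i

/-! ## the cut-off -/

/-- smooth function equal to `1` on `(-∞,1]` and `0` on `[2,∞)` -/
noncomputable def bt (t : ℝ) : ℝ := Real.smoothTransition (2 - t)

theorem bt_one {t : ℝ} (ht : t ≤ 1) : bt t = 1 :=
  Real.smoothTransition.one_of_one_le (by linarith)

theorem bt_zero {t : ℝ} (ht : 2 ≤ t) : bt t = 0 :=
  Real.smoothTransition.zero_of_nonpos (by linarith)

theorem bt_nonneg (t : ℝ) : 0 ≤ bt t := Real.smoothTransition.nonneg _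
theorem bt_le_one (t : ℝ) : bt t ≤ 1 := Real.smoothTransition.le_one _

theorem contDiff_bt : ContDiff ℝ 1 bt :=
  Real.smoothTransition.contDiff.comp (contDiff_const.sub contDiff_id)

theorem deriv_bt_low {t : ℝ} (ht : t < 1) : deriv bt t = 0 := by
  have h : bt =ᶠ[𝓝 t] fun _ => 1 := by
    filter_upwards [Iio_mem_nhds ht] with s hs
    exact bt_one (le_of_lt hs)
  rw [h.deriv_eq]; simp

theorem deriv_bt_high {t : ℝ} (ht : 2 < t) : deriv bt t = 0 := by
  have h : bt =ᶠ[𝓝 t] fun _ => 0 := by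
    filter_upwards [Ioi_mem_nhds ht] with s hs
    exact bt_zero (le_of_lt hs)
  rw [h.deriv_eq]; simp

theorem exists_D : ∃ D : ℝ, 0 ≤ D ∧ ∀ t, |2 * t * deriv bt t| ≤ D := by
  have hc : Continuous fun t => 2 * t * deriv bt t :=
    (continuous_const.mul continuous_id).mul (contDiff_bt.continuous_deriv le_rfl)
  have hs : HasCompactSupport fun t => 2 * t * deriv bt t := by
    refine HasCompactSupport.intro (isCompact_Icc (a := (1 : ℝ)) (b := 2)) fun t ht => ?_
    rw [Set.mem_Icc, not_and_or, not_le, not_le] at ht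
    rcases ht with h | h
    · rw [deriv_bt_low h, mul_zero]
    · rw [deriv_bt_high h, mul_zero]
  obtain ⟨D, hD⟩ := hs.exists_bound_of_continuous hc
  exact ⟨D, le_trans (norm_nonneg _) (hD 0), hD⟩

/-- the cut-off at height `N` -/
noncomputable def chi (N : ℝ) (p : Pt) : ℝ := bt (hgt p / N)

theorem contDiff_chi (N : ℝ) : ContDiff ℝ 1 (chi N : Pt → ℝ) :=
  contDiff_bt.comp (contDiff_hgt.div_const N)

theorem pd_chi (N : ℝ) (e p : Pt) :
    pd e (cc (chi N)) p = ((deriv bt (hgt p / N) * (fderiv ℝ hgt p e / N) : ℝ) : ℂ) := by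
  have h1 : HasDerivAt bt (deriv bt (hgt p / N)) (hgt p / N) :=
    (contDiff_bt.differentiable one_ne_zero _).hasDerivAt
  have hd : HasFDerivAt hgt (fderiv ℝ hgt p) p :=
    (contDiff_hgt.differentiable one_ne_zero p).hasFDerivAt
  have h2 : HasFDerivAt (fun q : Pt => hgt q / N) ((N⁻¹ : ℝ) • fderiv ℝ hgt p) p := by
    have := hd.const_smul (N⁻¹)
    refine this.congr_of_eventuallyEq (Filter.Eventually.of_forall fun q => ?_)
    simp [div_eq_inv_mul]
  have h3 := h1.comp_hasFDerivAt p h2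
  have h4 := (Complex.ofRealCLM.hasFDerivAt (x := bt (hgt p / N))).comp p h3
  have h5 : fderiv ℝ (cc (chi N)) p = _ := h4.fderiv
  unfold pd
  rw [h5]
  simp only [ContinuousLinearMap.comp_apply, smul_apply, Complex.ofRealCLM_apply, smul_eq_mul]
  rw [div_eq_inv_mul (fderiv ℝ hgt p e)]

theorem Eis_one_le {x : ℂ} (hx : x ∈ Eis) (h0 : x ≠ 0) : 1 ≤ ‖x‖ ^ 2 := by
  obtain ⟨a, b, rfl⟩ := hx
  have h1 : 0 < ‖(a : ℂ) + b * om‖ ^ 2 := by
    have := norm_pos_iff.2 h0
    positivity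
  rw [eis_norm] at h1 ⊢
  have h2 : 0 < a ^ 2 - a * b + b ^ 2 := by exact_mod_cast h1
  have h3 : 1 ≤ a ^ 2 - a * b + b ^ 2 := h2
  exact_mod_cast h3

/-- a cusp vector has inverse height `1 / hgt` or at least `hgt / 4` -/
theorem orb_case {γ : V3 ≃ₗ[ℂ] V3} (hγ : γ ∈ Gam) {p : Pt} (hp : p ∈ SD) :
    uval (γ w0) p = 1 / hgt p ∨ hgt p / 4 ≤ uval (γ w0) p := by
  have hp' : 0 < hgt p := hp
  have hw0 : (w0 : V3) ∈ lat3 := ⟨Eis_one, Eis.zero_mem, Eis.zero_mem⟩
  have hlat : γ w0 ∈ lat3 := (hγ.2 _).2 hw0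
  have hγi : γ⁻¹ ∈ Gam := Gam.inv_mem hγ
  have hlat2 : γ⁻¹ w0 ∈ lat3 := (hγi.2 _).2 hw0
  have hiso : herm (γ w0) (γ w0) = 0 := by
    rw [hγ.1]
    simp [herm, w0]
  by_cases h0 : (γ w0).2.2 = 0
  · left
    have hv : (γ w0).2.1 = 0 := by
      unfold herm at hiso
      rw [h0] at hiso
      simpa using hiso
    obtain ⟨c, hc⟩ : ∃ c : ℂ, c = (γ w0).1 := ⟨_, rfl⟩
    have e1 : γ w0 = c • (w0 : V3) := by
      refine Prod.ext ?_ (Prod.ext ?_ ?_)
      · rw [← hc]; simp [w0]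
      · rw [hv]; simp [w0]
      · rw [h0]; simp [w0]
    have h3 : γ⁻¹ (γ w0) = w0 := γ.symm_apply_apply w0
    rw [e1, map_smul] at h3
    have hne : c ≠ 0 := by
      intro h
      rw [h, zero_smul] at h3
      have h4 := congrArg (fun x : V3 => x.1) h3
      simp [w0] at h4
    have e2 : γ⁻¹ (w0 : V3) = c⁻¹ • w0 := by
      conv_rhs => rw [← h3]
      rw [smul_smul, inv_mul_cancel₀ hne, one_smul]
    have e3 : c⁻¹ ∈ Eis := by
      have := hlat2.1
      rw [e2] at this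
      simpa [w0] using this
    have n1 := Eis_one_le (x := c) (by rw [hc]; exact hlat.1) hne
    have n2 := Eis_one_le e3 (inv_ne_zero hne)
    have n3 : ‖(γ w0).1‖ ^ 2 = 1 := by
      rw [← hc]
      rw [norm_inv, inv_pow] at n2
      refine le_antisymm ?_ n1
      exact (one_le_inv₀ (by positivity)).1 n2
    have e4 : herm (vec p) (γ w0) = conj (γ w0).1 := by
      unfold herm
      rw [h0, hv]
      simp [vec]
    unfold uval
    rw [e4, Complex.norm_conj, n3]
  · right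
    have n1 := Eis_one_le hlat.2.2 h0
    set v : V3 := γ w0 with hv
    have key : hgt p * (herm v v).re + ‖herm (vec p) v‖ ^ 2 =
        hgt p * ‖v.2.1 - p.2 * v.2.2‖ ^ 2 +
          ‖(hgt p : ℂ) * v.2.2 + conj (herm (vec p) v)‖ ^ 2 := by
      simp only [hgt, herm, vec, Complex.sq_norm, Complex.normSq_apply]
      simp
      ring
    rw [hiso] at key
    have h2 : ‖(hgt p : ℂ) * v.2.2 + conj (herm (vec p) v)‖ ≤ ‖herm (vec p) v‖ := by
      refine le_of_sq_le_sq ?_ (norm_nonneg _)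
      have : 0 ≤ hgt p * ‖v.2.1 - p.2 * v.2.2‖ ^ 2 := by positivity
      simp only [Complex.zero_re, mul_zero, zero_add] at key
      linarith
    have h3 : ‖(hgt p : ℂ) * v.2.2‖ ≤ 2 * ‖herm (vec p) v‖ := by
      have e : (hgt p : ℂ) * v.2.2 =
          ((hgt p : ℂ) * v.2.2 + conj (herm (vec p) v)) - conj (herm (vec p) v) := by ring
      rw [e]
      refine (norm_sub_le _ _).trans ?_
      rw [Complex.norm_conj]
      linarith
    have h4 : hgt p ≤ 2 * ‖herm (vec p) v‖ := by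
      refine le_trans ?_ h3
      rw [norm_mul, Complex.norm_real, Real.norm_eq_abs, abs_of_pos hp']
      have : 1 ≤ ‖v.2.2‖ := by nlinarith [norm_nonneg v.2.2]
      nlinarith
    unfold uval
    rw [le_div_iff₀ hp']
    nlinarith

/-- invariance of the cut-off inside the fundamental region -/
theorem chi_inv {a N : ℝ} (ha : 0 < a) (hN : 4 / a ≤ N)
    {γ : V3 ≃ₗ[ℂ] V3} (hγ : γ ∈ Gam) {p : Pt} (hp : p ∈ SD) (h1 : a ≤ hgt p)
    (h2 : a ≤ hgt (act γ p)) : chi N (act γ p) = chi N p := by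
  have hn0 : 0 < N := lt_of_lt_of_le (by positivity) hN
  have hp' : (0 : ℝ) < hgt p := hp
  have hγi : γ⁻¹ ∈ Gam := Gam.inv_mem hγ
  have hact : (0 : ℝ) < hgt (act γ p) := act_mem hγ.1 hp
  have hu : 1 / hgt (act γ p) = uval (γ⁻¹ w0) p := by
    rw [← uval_act hγ.1 _ hp, uval_w0]
  rcases orb_case hγi hp with h | hge
  · rw [h] at hu
    have h4 : hgt (act γ p) = hgt p := by
      have := one_div_one_div (hgt (act γ p))
      rw [hu, one_div_one_div] at this
      exact this.symm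
    unfold chi
    rw [h4]
  · have hprod : hgt (act γ p) * hgt p ≤ 4 := by
      rw [← hu] at hge
      rw [div_le_div_iff₀ (by norm_num) hact] at hge
      linarith
    have hna : 4 ≤ N * a := by
      rw [div_le_iff₀ ha] at hN; exact hN
    have b1 : hgt (act γ p) ≤ N := by
      have : hgt (act γ p) * a ≤ 4 := le_trans (mul_le_mul_of_nonneg_left h1 hact.le) hprod
      by_contra hlt
      push Not at hlt
      nlinarith
    have b2 : hgt p ≤ N := by
      have : a * hgt p ≤ 4 := le_trans (mul_le_mul_of_nonneg_right h2 hp'.le) hprod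
      by_contra hlt
      push Not at hlt
      nlinarith
    unfold chi
    rw [bt_one ((div_le_one hn0).mpr b1), bt_one ((div_le_one hn0).mpr b2)]

/-- pointwise Cauchy-Schwarz bound for the cut-off term -/
theorem cutoff_bound {ι : Type} [Fintype ι] (u : ι → Pt → ℂ) {D : ℝ}
    (hD : ∀ t, |2 * t * deriv bt t| ≤ D) {N : ℝ} (hN : 0 < N) {ε : ℝ} (hε : 0 < ε) {p : Pt}
    (hp : p ∈ SD) :
    2 * (chi N p * ‖Gop u (cc (chi N)) p‖)
      ≤ ε * (chi N p ^ 2 * Bf u p) +
        ε⁻¹ * (D ^ 2 * (Set.indicator {q : Pt | N ≤ hgt q} (Af u) p)) := by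
  have hp' : (0 : ℝ) < hgt p := hp
  have hχ : 0 ≤ chi N p := bt_nonneg _
  have hgd : ∀ i, ‖(starRingEnd ℂ) (u i p) * gdot (u i) (cc (chi N)) p‖
      = ‖u i p‖ * (hgt p * ‖pd (1, 0) (u i) p‖) *
        |2 * (hgt p / N) * deriv bt (hgt p / N)| := by
    intro i
    unfold gdot
    simp only [XX_eq, YY_eq, pd_chi, fd_hgt_one, fd_hgt_I, fd_hgt_X, fd_hgt_Y, zero_div,
      mul_zero, Complex.ofReal_zero, add_zero]
    rw [norm_mul, norm_mul, norm_mul, norm_pow, RCLike.norm_conj, Complex.norm_real,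
      Complex.norm_real, Real.norm_eq_abs, Real.norm_eq_abs, abs_of_pos hp', abs_mul, abs_mul,
      abs_mul, abs_div, abs_div, abs_of_pos hp', abs_of_pos hN, abs_neg]
    field_simp
  have hsum : ‖Gop u (cc (chi N)) p‖
      ≤ ∑ i, ‖u i p‖ * (hgt p * ‖pd (1, 0) (u i) p‖) *
        |2 * (hgt p / N) * deriv bt (hgt p / N)| := by
    unfold Gop
    refine le_trans (norm_sum_le _ _) (Finset.sum_le_sum fun i _ => (hgd i).le)
  set d := |2 * (hgt p / N) * deriv bt (hgt p / N)| with hd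
  have hd0 : 0 ≤ d := abs_nonneg _
  have hdD : d ≤ D := hD _
  have hdz : hgt p < N → d = 0 := by
    intro h
    have : hgt p / N < 1 := (div_lt_one hN).mpr h
    rw [hd, deriv_bt_low this, mul_zero, abs_zero]
  have hind : d ^ 2 * Af u p ≤ D ^ 2 * Set.indicator {q : Pt | N ≤ hgt q} (Af u) p := by
    by_cases h : N ≤ hgt p
    · rw [Set.indicator_of_mem (by exact h)]
      exact mul_le_mul_of_nonneg_right (pow_le_pow_left₀ hd0 hdD 2) (Af_nonneg u p)
    · rw [Set.indicator_of_notMem (by exact h), hdz (not_le.mp h)]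
      simp
  have hterm : ∀ i, 2 * (chi N p * (‖u i p‖ * (hgt p * ‖pd (1, 0) (u i) p‖) * d))
      ≤ ε * (chi N p ^ 2 * gsq (u i) p) + ε⁻¹ * (d ^ 2 * ‖u i p‖ ^ 2) := by
    intro i
    have hg : (hgt p * ‖pd (1, 0) (u i) p‖) ^ 2 ≤ gsq (u i) p := by
      unfold gsq
      rw [mul_pow]
      have h1 : 0 ≤ hgt p ^ 2 * ‖pd (Complex.I, 0) (u i) p‖ ^ 2 := by positivity
      have h2 : 0 ≤ hgt p * (‖XX (u i) p‖ ^ 2 + ‖YY (u i) p‖ ^ 2) := by positivity
      linarith
    set x := chi N p * (hgt p * ‖pd (1, 0) (u i) p‖) with hx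
    set y := ‖u i p‖ * d with hy
    have hxy : 2 * (x * y) ≤ ε * x ^ 2 + ε⁻¹ * y ^ 2 := by
      have h1 : 0 ≤ ε⁻¹ * (ε * x - y) ^ 2 := by positivity
      have h2 : ε⁻¹ * (ε * x - y) ^ 2 = ε * x ^ 2 - 2 * (x * y) + ε⁻¹ * y ^ 2 := by
        field_simp
        ring
      linarith
    have h3 : x ^ 2 ≤ chi N p ^ 2 * gsq (u i) p := by
      rw [hx, mul_pow]
      exact mul_le_mul_of_nonneg_left hg (by positivity)
    have h4 : ε * x ^ 2 ≤ ε * (chi N p ^ 2 * gsq (u i) p) := mul_le_mul_of_nonneg_left h3 hε.le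
    calc 2 * (chi N p * (‖u i p‖ * (hgt p * ‖pd (1, 0) (u i) p‖) * d)) = 2 * (x * y) := by
          rw [hx, hy]; ring
      _ ≤ ε * x ^ 2 + ε⁻¹ * y ^ 2 := hxy
      _ ≤ ε * (chi N p ^ 2 * gsq (u i) p) + ε⁻¹ * y ^ 2 := by linarith
      _ = _ := by rw [hy]; ring
  calc 2 * (chi N p * ‖Gop u (cc (chi N)) p‖)
      ≤ 2 * (chi N p * ∑ i, ‖u i p‖ * (hgt p * ‖pd (1, 0) (u i) p‖) * d) := by
        have := mul_le_mul_of_nonneg_left hsum hχ
        linarith
    _ = ∑ i, 2 * (chi N p * (‖u i p‖ * (hgt p * ‖pd (1, 0) (u i) p‖) * d)) := by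
        rw [Finset.mul_sum, Finset.mul_sum]
    _ ≤ ∑ i, (ε * (chi N p ^ 2 * gsq (u i) p) + ε⁻¹ * (d ^ 2 * ‖u i p‖ ^ 2)) :=
        Finset.sum_le_sum fun i _ => hterm i
    _ = ε * (chi N p ^ 2 * Bf u p) + ε⁻¹ * (d ^ 2 * Af u p) := by
        rw [Finset.sum_add_distrib, ← Finset.mul_sum, ← Finset.mul_sum, ← Finset.mul_sum,
          ← Finset.mul_sum]
        rfl
    _ ≤ _ := by
        have := mul_le_mul_of_nonneg_left hind (inv_pos.mpr hε).le
        linarith

end Pool.Agent.Helper78.Pic
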