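import Pool.Agent.Helper86.Pic.ALG

set_option autoImplicit false

/-!
# Module ENERGY of MP_8410ab_nt (Picard): Green's formula
-/

namespace Pool.Agent.Helper78.Pic

open Pool.Agent.Helper10.Pic Pool.Agent.Helper86.Pic
open MeasureTheory Topology
open scoped ComplexConjugate

/-- interface to module DIFF -/
structure Dp : Prop where
  cd : ∀ g ∈ UG, ContDiffOn ℝ 2 (act g) SD
  gd : ∀ g ∈ UG, ∀ p ∈ SD, ∀ f h : Pt → ℂ, DifferentiableAt ℝ f (act g p) →
    DifferentiableAt ℝ h (act g p) →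
      gdot (fun q => f (act g q)) (fun q => h (act g q)) p = gdot f h (act g p)
  mp : ∀ g ∈ UG, MeasurePreserving (act g) hyp hyp

theorem Dp.cd1 (hDp : Dp) {g : V3 ≃ₗ[ℂ] V3} (hg : g ∈ UG) :
    ContDiffOn ℝ 1 (act g) SD := (hDp.cd g hg).of_le (by norm_num)

theorem contDiff_hgt {m : WithTop ℕ∞} : ContDiff ℝ m hgt := by
  have h1 : ContDiff ℝ m fun p : Pt => p.1.re := Complex.reCLM.contDiff.comp contDiff_fst
  have h2 : ContDiff ℝ m fun p : Pt => ‖p.2‖ ^ 2 := contDiff_snd.norm_sq ℝ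
  exact ((contDiff_const.mul h1).add h2).neg

theorem continuous_hgt : Continuous hgt := (contDiff_hgt (m := 0)).continuous

theorem isOpen_SD : IsOpen SD := isOpen_lt continuous_const continuous_hgt

theorem act_inv_act {g : V3 ≃ₗ[ℂ] V3} (hg : g ∈ UG) {p : Pt} (hp : p ∈ SD) :
    act g⁻¹ (act g p) = p := by
  rw [← act_mul g⁻¹ hg hp, inv_mul_cancel, act_one]

theorem act_act_inv {g : V3 ≃ₗ[ℂ] V3} (hg : g ∈ UG) {p : Pt} (hp : p ∈ SD) :
    act g (act g⁻¹ p) = p := by
  rw [← act_mul g (UG.inv_mem hg) hp, mul_inv_cancel, act_one]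

/-! ## functions supported in compact subsets of the Siegel domain -/

theorem continuous_of_SD {E : Type*} [TopologicalSpace E] [Zero E] {f : Pt → E} {K : Set Pt}
    (hK : IsClosed K) (hKU : K ⊆ SD) (hf : ContinuousOn f SD) (h0 : ∀ p, p ∉ K → f p = 0) :
    Continuous f := by
  rw [continuous_iff_continuousAt]
  intro p
  by_cases hp : p ∈ SD
  · exact hf.continuousAt (isOpen_SD.mem_nhds hp)
  · have hpK : p ∈ Kᶜ := fun h => hp (hKU h)
    have hev : f =ᶠ[𝓝 p] fun _ => 0 := by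
      filter_upwards [hK.isOpen_compl.mem_nhds hpK] with q hq
      exact h0 q hq
    exact continuousAt_const.congr hev.symm

theorem contDiff_of_SD {E : Type*} [NormedAddCommGroup E] [NormedSpace ℝ E] {m : WithTop ℕ∞}
    {f : Pt → E} {K : Set Pt}
    (hK : IsClosed K) (hKU : K ⊆ SD) (hf : ContDiffOn ℝ m f SD) (h0 : ∀ p, p ∉ K → f p = 0) :
    ContDiff ℝ m f := by
  rw [contDiff_iff_contDiffAt]
  intro p
  by_cases hp : p ∈ SD
  · exact hf.contDiffAt (isOpen_SD.mem_nhds hp)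
  · have hpK : p ∈ Kᶜ := fun h => hp (hKU h)
    have hev : f =ᶠ[𝓝 p] fun _ => 0 := by
      filter_upwards [hK.isOpen_compl.mem_nhds hpK] with q hq
      exact h0 q hq
    exact contDiffAt_const.congr_of_eventuallyEq hev

theorem isHaar : (volume : Measure Pt).IsAddHaarMeasure :=
  Measure.prod.instIsAddHaarMeasure _ _

theorem integrable_vol {E : Type*} [NormedAddCommGroup E] {f : Pt → E} {K : Set Pt}
    (hK : IsCompact K) (hf : Continuous f) (h0 : ∀ p, p ∉ K → f p = 0) :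
    Integrable f (volume : Measure Pt) := by
  have := isHaar
  exact hf.integrable_of_hasCompactSupport (HasCompactSupport.intro hK h0)

theorem measurable_weight' : Measurable fun p : Pt => ENNReal.ofReal ((hgt p ^ 3)⁻¹) :=
  ((continuous_hgt.measurable.pow_const 3).inv).ennreal_ofReal

theorem integral_hyp {E : Type*} [NormedAddCommGroup E] [NormedSpace ℝ E] (f : Pt → E) :
    ∫ p, f p ∂hyp = ∫ p in SD, ((hgt p ^ 3)⁻¹ : ℝ) • f p := by
  unfold hyp
  rw [integral_withDensity_eq_integral_toReal_smul measurable_weight'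
    (Filter.Eventually.of_forall fun _ => ENNReal.ofReal_lt_top)]
  refine setIntegral_congr_fun isOpen_SD.measurableSet fun p hp => ?_
  have hp' : (0 : ℝ) < hgt p := hp
  rw [ENNReal.toReal_ofReal (by positivity)]

theorem integrable_hyp {E : Type*} [NormedAddCommGroup E] [NormedSpace ℝ E] {f : Pt → E}
    {K : Set Pt} (hK : IsCompact K) (hKU : K ⊆ SD) (hf : ContinuousOn f SD)
    (h0 : ∀ p, p ∉ K → f p = 0) : Integrable f hyp := by
  unfold hyp
  rw [integrable_withDensity_iff_integrable_smul' measurable_weight'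
    (Filter.Eventually.of_forall fun _ => ENNReal.ofReal_lt_top)]
  have hc : Continuous fun p : Pt => ((hgt p ^ 3)⁻¹ : ℝ) • f p := by
    refine continuous_of_SD hK.isClosed hKU ?_ fun p hp => by rw [h0 p hp, smul_zero]
    refine ContinuousOn.smul ?_ hf
    refine ContinuousOn.inv₀ (continuous_hgt.pow 3).continuousOn fun p hp => ?_
    have hp' : (0 : ℝ) < hgt p := hp
    positivity
  have hi : Integrable (fun p : Pt => ((hgt p ^ 3)⁻¹ : ℝ) • f p) (volume.restrict SD) :=
    (integrable_vol hK hc fun p hp => by rw [h0 p hp, smul_zero]).restrict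
  refine (integrable_congr ?_).mpr hi
  rw [Filter.EventuallyEq, ae_restrict_iff' isOpen_SD.measurableSet]
  refine Filter.Eventually.of_forall fun p hp => ?_
  have hp' : (0 : ℝ) < hgt p := hp
  rw [ENNReal.toReal_ofReal (by positivity)]

/-! ## continuity of the partial derivatives -/

/-- the horizontal vector fields -/
noncomputable def vX (p : Pt) : Pt := (-conj p.2, 1)
noncomputable def vY (p : Pt) : Pt := (-(Complex.I * conj p.2), Complex.I)

theorem XX_eq (f : Pt → ℂ) (p : Pt) : XX f p = pd (vX p) f p := rfl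
theorem YY_eq (f : Pt → ℂ) (p : Pt) : YY f p = pd (vY p) f p := rfl

theorem contDiff_vX {m : WithTop ℕ∞} : ContDiff ℝ m vX :=
  ((Complex.conjCLE.contDiff.comp contDiff_snd).neg).prodMk contDiff_const

theorem contDiff_vY {m : WithTop ℕ∞} : ContDiff ℝ m vY :=
  ((contDiff_const.mul (Complex.conjCLE.contDiff.comp contDiff_snd)).neg).prodMk contDiff_const

theorem continuousOn_pd (e : Pt) {f : Pt → ℂ} (hf : ContDiffOn ℝ 1 f SD) :
    ContinuousOn (pd e f) SD := by
  have h := hf.continuousOn_fderiv_of_isOpen isOpen_SD le_rfl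
  exact h.clm_apply continuousOn_const

theorem continuousOn_XX {f : Pt → ℂ} (hf : ContDiffOn ℝ 1 f SD) :
    ContinuousOn (XX f) SD := by
  have h := hf.continuousOn_fderiv_of_isOpen isOpen_SD le_rfl
  exact h.clm_apply (contDiff_vX (m := 0)).continuous.continuousOn

theorem continuousOn_YY {f : Pt → ℂ} (hf : ContDiffOn ℝ 1 f SD) :
    ContinuousOn (YY f) SD := by
  have h := hf.continuousOn_fderiv_of_isOpen isOpen_SD le_rfl
  exact h.clm_apply (contDiff_vY (m := 0)).continuous.continuousOn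

theorem contDiffOn_fd {f : Pt → ℂ} (hf : ContDiffOn ℝ 2 f SD) :
    ContDiffOn ℝ 1 (fderiv ℝ f) SD := by
  refine hf.fderiv_of_isOpen isOpen_SD ?_
  norm_num

theorem contDiffOn_pd (e : Pt) {f : Pt → ℂ} (hf : ContDiffOn ℝ 2 f SD) :
    ContDiffOn ℝ 1 (pd e f) SD := (contDiffOn_fd hf).clm_apply contDiffOn_const

theorem contDiffOn_XX {f : Pt → ℂ} (hf : ContDiffOn ℝ 2 f SD) :
    ContDiffOn ℝ 1 (XX f) SD := (contDiffOn_fd hf).clm_apply contDiff_vX.contDiffOn

theorem contDiffOn_YY {f : Pt → ℂ} (hf : ContDiffOn ℝ 2 f SD) :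
    ContDiffOn ℝ 1 (YY f) SD := (contDiffOn_fd hf).clm_apply contDiff_vY.contDiffOn

theorem differentiableAt_of {f : Pt → ℂ} (hf : ContDiffOn ℝ 1 f SD) {p : Pt} (hp : p ∈ SD) :
    DifferentiableAt ℝ f p :=
  (hf.contDiffAt (isOpen_SD.mem_nhds hp)).differentiableAt one_ne_zero

/-! ## Green's formula -/

theorem pd_zero_off (e : Pt) {φ : Pt → ℂ} {p : Pt} (hp : p ∉ tsupport φ) : pd e φ p = 0 := by
  unfold pd
  have : fderiv ℝ φ p = 0 := by
    by_contra hne
    exact hp (tsupport_fderiv_subset ℝ (subset_tsupport _ hne))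
  rw [this]; rfl

theorem continuous_pd {φ : Pt → ℂ} (hφ : ContDiff ℝ 1 φ) (e : Pt) : Continuous (pd e φ) := by
  have := hφ.continuous_fderiv one_ne_zero
  exact this.clm_apply continuous_const

theorem continuous_XX {φ : Pt → ℂ} (hφ : ContDiff ℝ 1 φ) : Continuous (XX φ) := by
  have := hφ.continuous_fderiv one_ne_zero
  exact this.clm_apply (contDiff_vX (m := 0)).continuous

theorem continuous_YY {φ : Pt → ℂ} (hφ : ContDiff ℝ 1 φ) : Continuous (YY φ) := by
  have := hφ.continuous_fderiv one_ne_zero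
  exact this.clm_apply (contDiff_vY (m := 0)).continuous

/-- integrability of functions supported in the support of a test function -/
theorem integrable_SD {φ : Pt → ℂ} (hc : HasCompactSupport φ) (hs : tsupport φ ⊆ SD)
    {f : Pt → ℂ} (hf : ContinuousOn f SD) (h0 : ∀ p, p ∉ tsupport φ → f p = 0) :
    Integrable f (volume.restrict SD) :=
  (integrable_vol hc (continuous_of_SD hc.isClosed hs hf h0) h0).restrict

theorem integrable_SDm {φ : Pt → ℂ} (hc : HasCompactSupport φ) (hs : tsupport φ ⊆ SD)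
    {f g : Pt → ℂ} (hf : ContinuousOn f SD) (hg : ContinuousOn g SD)
    (h0 : ∀ p, p ∉ tsupport φ → g p = 0) :
    Integrable (fun p => f p * g p) (volume.restrict SD) :=
  integrable_SD hc hs (hf.mul hg) fun p hp => by
    rw [h0 p hp, mul_zero]

/-- integration by parts against a test function -/
theorem ibp {w φ : Pt → ℂ} (hw : ContDiffOn ℝ 1 w SD) (hφ : ContDiff ℝ 1 φ)
    (hc : HasCompactSupport φ) (hs : tsupport φ ⊆ SD) (e : Pt) :
    ∫ p in SD, w p * pd e φ p = - ∫ p in SD, pd e w p * φ p := by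
  have := isHaar
  have h0 : ∀ p, p ∉ tsupport φ → φ p = 0 := fun p hp => image_eq_zero_of_notMem_tsupport hp
  have h1 : ∀ p, p ∉ tsupport φ → pd e φ p = 0 := fun p hp => pd_zero_off e hp
  have hφ' : Continuous (pd e φ) := continuous_pd hφ e
  have c1 : Continuous fun p => w p * pd e φ p :=
    continuous_of_SD hc.isClosed hs (hw.continuousOn.mul hφ'.continuousOn)
      fun p hp => by rw [h1 p hp, mul_zero]
  have c2 : Continuous fun p => pd e w p * φ p :=
    continuous_of_SD hc.isClosed hs ((continuousOn_pd e hw).mul hφ.continuous.continuousOn)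
      fun p hp => by rw [h0 p hp, mul_zero]
  have c3 : Continuous fun p => w p * φ p :=
    continuous_of_SD hc.isClosed hs (hw.continuousOn.mul hφ.continuous.continuousOn)
      fun p hp => by rw [h0 p hp, mul_zero]
  have key := integral_bilinear_hasLineDerivAt_right_eq_neg_left_of_integrable
    (μ := (volume : Measure Pt)) (f := w) (f' := pd e w) (g := φ) (g' := pd e φ) (v := e)
    (B := ContinuousLinearMap.mul ℝ ℂ)
    (by simpa using integrable_vol hc c2 fun p hp => by rw [h0 p hp, mul_zero])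
    (by simpa using integrable_vol hc c1 fun p hp => by rw [h1 p hp, mul_zero])
    (by simpa using integrable_vol hc c3 fun p hp => by rw [h0 p hp, mul_zero])
    (fun p hp => (differentiableAt_of hw (hs hp)).hasFDerivAt.hasLineDerivAt e)
    (fun p _ => (hφ.differentiable one_ne_zero p).hasFDerivAt.hasLineDerivAt e)
  simp only [ContinuousLinearMap.mul_apply'] at key
  have e1' : ∫ p in SD, w p * pd e φ p = ∫ p, w p * pd e φ p := by
    refine setIntegral_eq_integral_of_forall_compl_eq_zero fun p hp => ?_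
    rw [h1 p fun h => hp (hs h), mul_zero]
  have e2' : ∫ p in SD, pd e w p * φ p = ∫ p, pd e w p * φ p := by
    refine setIntegral_eq_integral_of_forall_compl_eq_zero fun p hp => ?_
    rw [h0 p fun h => hp (hs h), mul_zero]
  rw [e1', e2']
  exact key

theorem pd_mul (e : Pt) {f h : Pt → ℂ} {p : Pt} (hf : DifferentiableAt ℝ f p)
    (hh : DifferentiableAt ℝ h p) :
    pd e (fun q => f q * h q) p = f p * pd e h p + h p * pd e f p := by
  unfold pd
  have h1 : fderiv ℝ (fun q => f q * h q) p = _ := (hf.hasFDerivAt.mul hh.hasFDerivAt).fderiv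
  rw [h1]
  simp [smul_eq_mul]

theorem pd_lin (a b : ℝ) (e e1 e2 : Pt) (f : Pt → ℂ) (p : Pt) :
    pd (e + a • e1 + b • e2) f p = pd e f p + a * pd e1 f p + b * pd e2 f p := by
  unfold pd
  rw [map_add, map_add, map_smul, map_smul, Complex.real_smul, Complex.real_smul]

/-- the real and imaginary part of the second coordinate, as complex valued functions -/
noncomputable def re2 (p : Pt) : ℂ := (p.2.re : ℂ)
noncomputable def im2 (p : Pt) : ℂ := (p.2.im : ℂ)

theorem contDiff_re2 {m : WithTop ℕ∞} : ContDiff ℝ m re2 :=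
  Complex.ofRealCLM.contDiff.comp (Complex.reCLM.contDiff.comp contDiff_snd)

theorem contDiff_im2 {m : WithTop ℕ∞} : ContDiff ℝ m im2 :=
  Complex.ofRealCLM.contDiff.comp (Complex.imCLM.contDiff.comp contDiff_snd)

theorem pd_re2 (z : ℂ) (p : Pt) : pd (z, 0) re2 p = 0 := by
  have h : HasFDerivAt re2 ((Complex.ofRealCLM.comp Complex.reCLM).comp
    (ContinuousLinearMap.snd ℝ ℂ ℂ)) p :=
    ((Complex.ofRealCLM.comp Complex.reCLM).comp (ContinuousLinearMap.snd ℝ ℂ ℂ)).hasFDerivAt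
  unfold pd
  rw [h.fderiv]
  simp

theorem pd_im2 (z : ℂ) (p : Pt) : pd (z, 0) im2 p = 0 := by
  have h : HasFDerivAt im2 ((Complex.ofRealCLM.comp Complex.imCLM).comp
    (ContinuousLinearMap.snd ℝ ℂ ℂ)) p :=
    ((Complex.ofRealCLM.comp Complex.imCLM).comp (ContinuousLinearMap.snd ℝ ℂ ℂ)).hasFDerivAt
  unfold pd
  rw [h.fderiv]
  simp

theorem XX_pd (f : Pt → ℂ) (p : Pt) :
    XX f p = pd (0, 1) f p + (-re2 p) * pd (1, 0) f p + im2 p * pd (Complex.I, 0) f p := by
  have h : vX p = (0, 1) + (-p.2.re) • (1, 0) + p.2.im • (Complex.I, 0) := by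
    refine Prod.ext ?_ ?_
    · apply Complex.ext <;> simp [vX]
    · apply Complex.ext <;> simp [vX]
  rw [XX_eq, h, pd_lin]
  simp [re2, im2]

theorem YY_pd (f : Pt → ℂ) (p : Pt) :
    YY f p = pd (0, Complex.I) f p + (-im2 p) * pd (1, 0) f p +
      (-re2 p) * pd (Complex.I, 0) f p := by
  have h : vY p = (0, Complex.I) + (-p.2.im) • (1, 0) + (-p.2.re) • (Complex.I, 0) := by
    refine Prod.ext ?_ ?_
    · apply Complex.ext <;> simp [vY]
    · apply Complex.ext <;> simp [vY]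
  rw [YY_eq, h, pd_lin]
  simp [re2, im2]

theorem integral_add3 {f g h : Pt → ℂ} {μ : Measure Pt} (hf : Integrable f μ)
    (hg : Integrable g μ) (hh : Integrable h μ) :
    (∫ p, f p ∂μ) + (∫ p, g p ∂μ) + (∫ p, h p ∂μ) = ∫ p, (f p + g p + h p) ∂μ := by
  have e1 : ∫ p, (f p + g p) ∂μ = (∫ p, f p ∂μ) + (∫ p, g p ∂μ) := integral_add hf hg
  have e2 : ∫ p, ((f p + g p) + h p) ∂μ = (∫ p, (f p + g p) ∂μ) + (∫ p, h p ∂μ) :=
    integral_add (hf.add hg) hh
  rw [e2, e1]

/-- integration by parts for a field `e + a (1,0) + b (i,0)` with coefficients which do not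
depend on the first coordinate -/
theorem ibp_field {w φ : Pt → ℂ} (hw : ContDiffOn ℝ 1 w SD) (hφ : ContDiff ℝ 1 φ)
    (hc : HasCompactSupport φ) (hs : tsupport φ ⊆ SD) (e : Pt) {a b : Pt → ℂ}
    (ha : ContDiff ℝ 1 a) (hb : ContDiff ℝ 1 b) (ha0 : ∀ p, pd (1, 0) a p = 0)
    (hb0 : ∀ p, pd (Complex.I, 0) b p = 0) :
    ∫ p in SD, w p * (pd e φ p + a p * pd (1, 0) φ p + b p * pd (Complex.I, 0) φ p) =
      - ∫ p in SD, (pd e w p + a p * pd (1, 0) w p + b p * pd (Complex.I, 0) w p) * φ p := by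
  have h0 : ∀ p, p ∉ tsupport φ → φ p = 0 := fun p hp => image_eq_zero_of_notMem_tsupport hp
  have haw : ContDiffOn ℝ 1 (fun p => a p * w p) SD := ha.contDiffOn.mul hw
  have hbw : ContDiffOn ℝ 1 (fun p => b p * w p) SD := hb.contDiffOn.mul hw
  have k1 := ibp hw hφ hc hs e
  have k2 := ibp haw hφ hc hs (1, 0)
  have k3 := ibp hbw hφ hc hs (Complex.I, 0)
  have i1 : ∀ e' : Pt, ∀ w' : Pt → ℂ, ContDiffOn ℝ 1 w' SD →
      Integrable (fun p => w' p * pd e' φ p) (volume.restrict SD) := fun e' w' hw' =>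
    integrable_SD hc hs (hw'.continuousOn.mul (continuous_pd hφ e').continuousOn) fun p hp => by
      rw [pd_zero_off e' hp, mul_zero]
  have i2 : ∀ e' : Pt, ∀ w' : Pt → ℂ, ContDiffOn ℝ 1 w' SD →
      Integrable (fun p => pd e' w' p * φ p) (volume.restrict SD) := fun e' w' hw' =>
    integrable_SD hc hs ((continuousOn_pd e' hw').mul hφ.continuous.continuousOn)
      fun p hp => by rw [h0 p hp, mul_zero]
  have e1 : ∫ p in SD, w p * (pd e φ p + a p * pd (1, 0) φ p + b p * pd (Complex.I, 0) φ p) =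
      (∫ p in SD, w p * pd e φ p) + (∫ p in SD, (fun p => a p * w p) p * pd (1, 0) φ p) +
        ∫ p in SD, (fun p => b p * w p) p * pd (Complex.I, 0) φ p := by
    rw [integral_add3 (i1 _ _ hw) (i1 _ _ haw) (i1 _ _ hbw)]
    refine integral_congr_ae (Filter.Eventually.of_forall fun p => ?_)
    simp only
    ring
  have e2 : ∫ p in SD, (pd e w p + a p * pd (1, 0) w p + b p * pd (Complex.I, 0) w p) * φ p =
      (∫ p in SD, pd e w p * φ p) + (∫ p in SD, pd (1, 0) (fun p => a p * w p) p * φ p) +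
        ∫ p in SD, pd (Complex.I, 0) (fun p => b p * w p) p * φ p := by
    rw [integral_add3 (i2 _ _ hw) (i2 _ _ haw) (i2 _ _ hbw)]
    refine setIntegral_congr_fun isOpen_SD.measurableSet fun p hp => ?_
    have hwd := differentiableAt_of hw hp
    change (pd e w p + a p * pd (1, 0) w p + b p * pd (Complex.I, 0) w p) * φ p =
      pd e w p * φ p + pd (1, 0) (fun p => a p * w p) p * φ p +
        pd (Complex.I, 0) (fun p => b p * w p) p * φ p
    rw [pd_mul _ (ha.differentiable one_ne_zero p) hwd, ha0 p,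
      pd_mul _ (hb.differentiable one_ne_zero p) hwd, hb0 p]
    ring
  rw [e1, e2, k1, k2, k3]
  ring

theorem ibp_XX {w φ : Pt → ℂ} (hw : ContDiffOn ℝ 1 w SD) (hφ : ContDiff ℝ 1 φ)
    (hc : HasCompactSupport φ) (hs : tsupport φ ⊆ SD) :
    ∫ p in SD, w p * XX φ p = - ∫ p in SD, XX w p * φ p := by
  have h := ibp_field hw hφ hc hs (0, 1) (a := fun p => -re2 p) (b := im2) contDiff_re2.neg
    contDiff_im2 (fun p => by
      have h1 : pd (1, 0) (fun p => -re2 p) p = - pd (1, 0) re2 p := by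
        unfold pd
        rw [fderiv_fun_neg]
        rfl
      rw [h1, pd_re2, neg_zero]) (fun p => pd_im2 _ p)
  simp only [XX_pd]
  exact h

theorem ibp_YY {w φ : Pt → ℂ} (hw : ContDiffOn ℝ 1 w SD) (hφ : ContDiff ℝ 1 φ)
    (hc : HasCompactSupport φ) (hs : tsupport φ ⊆ SD) :
    ∫ p in SD, w p * YY φ p = - ∫ p in SD, YY w p * φ p := by
  have h := ibp_field hw hφ hc hs (0, Complex.I) (a := fun p => -im2 p) (b := fun p => -re2 p)
    contDiff_im2.neg contDiff_re2.neg (fun p => by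
      have h1 : pd (1, 0) (fun p => -im2 p) p = - pd (1, 0) im2 p := by
        unfold pd
        rw [fderiv_fun_neg]
        rfl
      rw [h1, pd_im2, neg_zero]) (fun p => by
      have h1 : pd (Complex.I, 0) (fun p => -re2 p) p = - pd (Complex.I, 0) re2 p := by
        unfold pd
        rw [fderiv_fun_neg]
        rfl
      rw [h1, pd_re2, neg_zero])
  simp only [YY_pd]
  exact h

/-! ## the height -/

theorem hasFDerivAt_hgt (p : Pt) : HasFDerivAt hgt
    (-((2 : ℝ) • Complex.reCLM.comp (ContinuousLinearMap.fst ℝ ℂ ℂ) +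
      (2 : ℝ) • (innerSL ℝ p.2).comp (ContinuousLinearMap.snd ℝ ℂ ℂ))) p := by
  have h1 : HasFDerivAt (fun q : Pt => 2 * q.1.re)
      ((2 : ℝ) • Complex.reCLM.comp (ContinuousLinearMap.fst ℝ ℂ ℂ)) p := by
    have := (Complex.reCLM.comp (ContinuousLinearMap.fst ℝ ℂ ℂ)).hasFDerivAt (x := p)
    exact this.const_mul 2
  have h2 : HasFDerivAt (fun q : Pt => ‖q.2‖ ^ 2)
      ((2 : ℝ) • (innerSL ℝ p.2).comp (ContinuousLinearMap.snd ℝ ℂ ℂ)) p := by
    have h3 : HasFDerivAt (fun q : Pt => q.2) (ContinuousLinearMap.snd ℝ ℂ ℂ) p :=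
      hasFDerivAt_snd
    have h4 := h3.norm_sq
    refine h4.congr_fderiv ?_
    ext <;> simp [mul_add]
  exact (h1.add h2).neg

theorem fd_hgt (p e : Pt) : fderiv ℝ hgt p e = -(2 * e.1.re + 2 * inner ℝ p.2 e.2) := by
  rw [(hasFDerivAt_hgt p).fderiv]
  simp

theorem fd_hgt_one (p : Pt) : fderiv ℝ hgt p (1, 0) = -2 := by
  rw [fd_hgt]; simp

theorem fd_hgt_I (p : Pt) : fderiv ℝ hgt p (Complex.I, 0) = 0 := by
  rw [fd_hgt]; simp

theorem fd_hgt_X (p : Pt) : fderiv ℝ hgt p (vX p) = 0 := by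
  rw [fd_hgt, Complex.inner]; simp [vX]

theorem fd_hgt_Y (p : Pt) : fderiv ℝ hgt p (vY p) = 0 := by
  rw [fd_hgt, Complex.inner]; simp [vY]

theorem pd_w (k : ℕ) (e : Pt) {f : Pt → ℂ} {p : Pt} (hp : p ∈ SD)
    (hf : DifferentiableAt ℝ f p) :
    pd e (fun q => ((hgt q ^ k)⁻¹ : ℝ) • f q) p = ((hgt p ^ k)⁻¹ : ℝ) • pd e f p +
      (-(k * (hgt p ^ (k + 1))⁻¹ * fderiv ℝ hgt p e) : ℝ) • f p := by
  have hp' : (0 : ℝ) < hgt p := hp
  have h0 : HasDerivAt (fun t : ℝ => (t ^ k)⁻¹) (-(k * (hgt p ^ (k + 1))⁻¹)) (hgt p) := by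
    have h := (hasDerivAt_pow k (hgt p)).inv (by positivity)
    refine h.congr_deriv ?_
    rcases k with _ | k
    · simp
    · simp only [Nat.add_sub_cancel]
      field_simp
      ring
  have hd : HasFDerivAt hgt (fderiv ℝ hgt p) p :=
    (contDiff_hgt.differentiable one_ne_zero p).hasFDerivAt
  have h1 : HasFDerivAt (fun q : Pt => (hgt q ^ k)⁻¹)
      ((-(k * (hgt p ^ (k + 1))⁻¹) : ℝ) • fderiv ℝ hgt p) p := h0.comp_hasFDerivAt p hd
  have h2 := hf.hasFDerivAt
  have h3 := h1.smul h2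
  have h4 : fderiv ℝ (fun q => ((hgt q ^ k)⁻¹ : ℝ) • f q) p = _ := h3.fderiv
  unfold pd
  rw [h4]
  simp only [add_apply, smul_apply,
    ContinuousLinearMap.smulRight_apply, smul_eq_mul]
  rw [neg_mul]

theorem contDiffOn_inv_hgt (k : ℕ) : ContDiffOn ℝ 1 (fun p : Pt => (hgt p ^ k)⁻¹) SD :=
  (contDiff_hgt.pow k).contDiffOn.inv fun p hp => by
    have hp' : (0 : ℝ) < hgt p := hp
    positivity

theorem contDiffOn_w (k : ℕ) {f : Pt → ℂ} (hf : ContDiffOn ℝ 1 f SD) :
    ContDiffOn ℝ 1 (fun q => ((hgt q ^ k)⁻¹ : ℝ) • f q) SD := (contDiffOn_inv_hgt k).smul hf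

theorem integral_add4 {f g h k : Pt → ℂ} {μ : Measure Pt} (hf : Integrable f μ)
    (hg : Integrable g μ) (hh : Integrable h μ) (hk : Integrable k μ) :
    (∫ p, f p ∂μ) + (∫ p, g p ∂μ) + (∫ p, h p ∂μ) + (∫ p, k p ∂μ) =
      ∫ p, (f p + g p + h p + k p) ∂μ := by
  rw [integral_add3 hf hg hh]
  exact (integral_add ((hf.add hg).add hh) hk).symm

theorem green {u : Pt → ℂ} (hu : ContDiffOn ℝ 2 u SD) (lam : ℂ)
    (heig : ∀ p ∈ SD, lap u p = -lam * u p) : WeakEig lam u := by
  intro φ hφ hc hs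
  have h0 : ∀ p, p ∉ tsupport φ → φ p = 0 := fun p hp => image_eq_zero_of_notMem_tsupport hp
  have c1 := contDiffOn_w 1 (contDiffOn_pd (1, 0) hu)
  have c2 := contDiffOn_w 1 (contDiffOn_pd (Complex.I, 0) hu)
  have c3 := contDiffOn_w 2 (contDiffOn_XX hu)
  have c4 := contDiffOn_w 2 (contDiffOn_YY hu)
  have k1 := ibp c1 hφ hc hs (1, 0)
  have k2 := ibp c2 hφ hc hs (Complex.I, 0)
  have k3 := ibp_XX c3 hφ hc hs
  have k4 := ibp_YY c4 hφ hc hs
  have i1 := integrable_SDm hc hs c1.continuousOn (continuous_pd hφ (1, 0)).continuousOn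
    fun p hp => pd_zero_off _ hp
  have i2 := integrable_SDm hc hs c2.continuousOn
    (continuous_pd hφ (Complex.I, 0)).continuousOn fun p hp => pd_zero_off _ hp
  have i3 := integrable_SDm hc hs c3.continuousOn (continuous_XX hφ).continuousOn
    fun p hp => pd_zero_off _ hp
  have i4 := integrable_SDm hc hs c4.continuousOn (continuous_YY hφ).continuousOn
    fun p hp => pd_zero_off _ hp
  have j1 := integrable_SDm hc hs (continuousOn_pd (1, 0) c1) hφ.continuous.continuousOn h0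
  have j2 := integrable_SDm hc hs (continuousOn_pd (Complex.I, 0) c2)
    hφ.continuous.continuousOn h0
  have j3 := integrable_SDm hc hs (continuousOn_XX c3) hφ.continuous.continuousOn h0
  have j4 := integrable_SDm hc hs (continuousOn_YY c4) hφ.continuous.continuousOn h0
  rw [integral_hyp, integral_hyp, ← integral_const_mul]
  have hL : ∫ p in SD, ((hgt p ^ 3)⁻¹ : ℝ) • gdot u φ p =
      (∫ p in SD, (((hgt p ^ 1)⁻¹ : ℝ) • pd (1, 0) u p) * pd (1, 0) φ p) +
      (∫ p in SD, (((hgt p ^ 1)⁻¹ : ℝ) • pd (Complex.I, 0) u p) * pd (Complex.I, 0) φ p) +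
      (∫ p in SD, (((hgt p ^ 2)⁻¹ : ℝ) • XX u p) * XX φ p) +
      (∫ p in SD, (((hgt p ^ 2)⁻¹ : ℝ) • YY u p) * YY φ p) := by
    rw [integral_add4 i1 i2 i3 i4]
    refine setIntegral_congr_fun isOpen_SD.measurableSet fun p hp => ?_
    have hp' : (0 : ℝ) < hgt p := hp
    have hne : (hgt p : ℂ) ≠ 0 := by exact_mod_cast hp'.ne'
    simp only [gdot, Complex.real_smul]
    push_cast
    field_simp
    ring
  have hR : ∫ p in SD, lam * (((hgt p ^ 3)⁻¹ : ℝ) • (u p * φ p)) =
      -((∫ p in SD, pd (1, 0) (fun q => ((hgt q ^ 1)⁻¹ : ℝ) • pd (1, 0) u q) p * φ p) +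
      (∫ p in SD, pd (Complex.I, 0)
        (fun q => ((hgt q ^ 1)⁻¹ : ℝ) • pd (Complex.I, 0) u q) p * φ p) +
      (∫ p in SD, XX (fun q => ((hgt q ^ 2)⁻¹ : ℝ) • XX u q) p * φ p) +
      (∫ p in SD, YY (fun q => ((hgt q ^ 2)⁻¹ : ℝ) • YY u q) p * φ p)) := by
    rw [integral_add4 j1 j2 j3 j4, ← integral_neg]
    refine setIntegral_congr_fun isOpen_SD.measurableSet fun p hp => ?_
    have hp' : (0 : ℝ) < hgt p := hp
    have hne : (hgt p : ℂ) ≠ 0 := by exact_mod_cast hp'.ne'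
    have hE := heig p hp
    change lam * (((hgt p ^ 3)⁻¹ : ℝ) • (u p * φ p)) =
      -(pd (1, 0) (fun q => ((hgt q ^ 1)⁻¹ : ℝ) • pd (1, 0) u q) p * φ p +
        pd (Complex.I, 0) (fun q => ((hgt q ^ 1)⁻¹ : ℝ) • pd (Complex.I, 0) u q) p * φ p +
        XX (fun q => ((hgt q ^ 2)⁻¹ : ℝ) • XX u q) p * φ p +
        YY (fun q => ((hgt q ^ 2)⁻¹ : ℝ) • YY u q) p * φ p)
    rw [XX_eq (fun q => ((hgt q ^ 2)⁻¹ : ℝ) • XX u q),
      YY_eq (fun q => ((hgt q ^ 2)⁻¹ : ℝ) • YY u q),
      pd_w 1 _ hp (differentiableAt_of (contDiffOn_pd (1, 0) hu) hp),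
      pd_w 1 _ hp (differentiableAt_of (contDiffOn_pd (Complex.I, 0) hu) hp),
      pd_w 2 _ hp (differentiableAt_of (contDiffOn_XX hu) hp),
      pd_w 2 _ hp (differentiableAt_of (contDiffOn_YY hu) hp), fd_hgt_one, fd_hgt_I, fd_hgt_X,
      fd_hgt_Y, ← XX_eq, ← YY_eq]
    have hE' : lam * u p = -((hgt p : ℂ) ^ 2 * (pd (1, 0) (pd (1, 0) u) p +
        pd (Complex.I, 0) (pd (Complex.I, 0) u) p) + 2 * (hgt p : ℂ) * pd (1, 0) u p +
        (hgt p : ℂ) * (XX (XX u) p + YY (YY u) p)) := by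
      unfold lap at hE
      linear_combination hE
    have h7 : lam * (((hgt p ^ 3)⁻¹ : ℝ) • (u p * φ p)) =
        (((hgt p ^ 3)⁻¹ : ℝ) : ℂ) * (lam * u p) * φ p := by
      rw [Complex.real_smul]; ring
    rw [h7, hE']
    simp only [Complex.real_smul]
    push_cast
    field_simp
    ring
  rw [hL, hR, k1, k2, k3, k4]
  ring

/-! ## invariance of the weak eigenvalue equation -/

theorem ae_hyp : ∀ᵐ p ∂hyp, p ∈ SD := by
  unfold hyp
  exact (withDensity_absolutelyContinuous _ _) (ae_restrict_mem isOpen_SD.measurableSet)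

theorem integral_act (hDp : Dp) {g : V3 ≃ₗ[ℂ] V3} (hg : g ∈ UG) {F : Pt → ℂ}
    (hF : AEStronglyMeasurable F hyp) :
    ∫ p, F (act g p) ∂hyp = ∫ p, F p ∂hyp := by
  have hmp := hDp.mp g hg
  have hF' : AEStronglyMeasurable F (Measure.map (act g) hyp) := by rw [hmp.map_eq]; exact hF
  have h := integral_map hmp.measurable.aemeasurable hF'
  rw [hmp.map_eq] at h
  exact h.symm

theorem continuousOn_gdot {u v : Pt → ℂ} (hu : ContDiffOn ℝ 1 u SD) (hv : ContDiffOn ℝ 1 v SD) :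
    ContinuousOn (gdot u v) SD := by
  have h : ContinuousOn (fun p : Pt => (hgt p : ℂ)) SD :=
    (Complex.continuous_ofReal.comp continuous_hgt).continuousOn
  exact ((h.pow 2).mul (((continuousOn_pd (1, 0) hu).mul (continuousOn_pd (1, 0) hv)).add
      ((continuousOn_pd (Complex.I, 0) hu).mul (continuousOn_pd (Complex.I, 0) hv)))).add
    (h.mul (((continuousOn_XX hu).mul (continuousOn_XX hv)).add
      ((continuousOn_YY hu).mul (continuousOn_YY hv))))

theorem pd_congr (e : Pt) {f h : Pt → ℂ} {p : Pt} (hfh : f =ᶠ[𝓝 p] h) : pd e f p = pd e h p := by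
  unfold pd; rw [hfh.fderiv_eq]

theorem gdot_congr {f h f' h' : Pt → ℂ} {p : Pt} (hf : f =ᶠ[𝓝 p] f') (hh : h =ᶠ[𝓝 p] h') :
    gdot f h p = gdot f' h' p := by
  unfold gdot
  rw [XX_eq, XX_eq, XX_eq, XX_eq, YY_eq, YY_eq, YY_eq, YY_eq]
  rw [pd_congr _ hf, pd_congr _ hh, pd_congr (Complex.I, 0) hf, pd_congr (Complex.I, 0) hh,
    pd_congr (vX p) hf, pd_congr (vX p) hh, pd_congr (vY p) hf, pd_congr (vY p) hh]

theorem gdot_zero_off {u φ : Pt → ℂ} {p : Pt} (hp : p ∉ tsupport φ) : gdot u φ p = 0 := by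
  unfold gdot
  rw [XX_eq φ, YY_eq φ, pd_zero_off _ hp, pd_zero_off _ hp, pd_zero_off _ hp, pd_zero_off _ hp]
  simp

theorem aesm_of {f : Pt → ℂ} (hf : ContinuousOn f SD) : AEStronglyMeasurable f hyp := by
  have h : AEStronglyMeasurable f (volume.restrict SD) :=
    hf.aestronglyMeasurable isOpen_SD.measurableSet
  unfold hyp
  exact h.mono_ac (withDensity_absolutelyContinuous _ _)

open Classical in
theorem weakEig_comp_aux (hDp : Dp) {g : V3 ≃ₗ[ℂ] V3} (hg : g ∈ UG) {u : Pt → ℂ}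
    (hu : ContDiffOn ℝ 1 u SD)
    {lam : ℂ} (h : WeakEig lam u) : WeakEig lam (fun p => u (act g p)) := by
  intro φ hφ hc hs
  set ψ : Pt → ℂ := fun p => if p ∈ SD then φ (act g⁻¹ p) else 0 with hψ
  set K : Set Pt := act g '' tsupport φ with hK
  have hgi : g⁻¹ ∈ UG := UG.inv_mem hg
  have hact : ContDiffOn ℝ 1 (act g⁻¹) SD := hDp.cd1 hgi
  have hact' : ContDiffOn ℝ 1 (act g) SD := hDp.cd1 hg
  have hKc : IsCompact K := hc.isCompact.image_of_continuousOn (hact'.continuousOn.mono hs)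
  have hKU : K ⊆ SD := by
    rintro _ ⟨p, hp, rfl⟩
    exact act_mem hg (hs hp)
  have hψ0 : ∀ p, p ∉ K → ψ p = 0 := by
    intro p hp
    simp only [hψ]
    split_ifs with hpU
    · apply image_eq_zero_of_notMem_tsupport
      intro hmem
      exact hp ⟨_, hmem, act_act_inv hg hpU⟩
    · rfl
  have hψU : ContDiffOn ℝ 1 ψ SD := by
    have : ContDiffOn ℝ 1 (fun p => φ (act g⁻¹ p)) SD := hφ.comp_contDiffOn hact
    refine this.congr fun p hp => ?_
    simp only [hψ, hp, if_true]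
  have hψC : ContDiff ℝ 1 ψ := contDiff_of_SD hKc.isClosed hKU hψU hψ0
  have hψc : HasCompactSupport ψ := HasCompactSupport.intro hKc hψ0
  have hψs : tsupport ψ ⊆ SD := by
    refine subset_trans (closure_minimal ?_ hKc.isClosed) hKU
    intro p hp
    by_contra hn
    exact hp (hψ0 p hn)
  have hkey := h ψ hψC hψc hψs
  have hback : ∀ p ∈ SD, ψ (act g p) = φ p := by
    intro p hp
    simp only [hψ, act_mem hg hp, if_true]
    rw [act_inv_act hg hp]
  have i1 : ∫ p, gdot (fun p => u (act g p)) φ p ∂hyp = ∫ p, gdot u ψ p ∂hyp := by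
    rw [← integral_act hDp hg (aesm_of (continuousOn_gdot hu hψU))]
    refine integral_congr_ae ?_
    filter_upwards [ae_hyp] with p hp
    rw [← hDp.gd g hg p hp _ _ (differentiableAt_of hu (act_mem hg hp))
      (differentiableAt_of hψU (act_mem hg hp))]
    refine gdot_congr (Filter.EventuallyEq.refl _ _) ?_
    filter_upwards [isOpen_SD.mem_nhds hp] with q hq
    exact (hback q hq).symm
  have i2 : ∫ p, u (act g p) * φ p ∂hyp = ∫ p, u p * ψ p ∂hyp := by
    rw [← integral_act hDp hg (F := fun p => u p * ψ p)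
      (aesm_of (hu.continuousOn.mul hψU.continuousOn))]
    refine integral_congr_ae ?_
    filter_upwards [ae_hyp] with p hp
    rw [hback p hp]
  rw [i1, i2]
  exact hkey

end Pool.Agent.Helper78.Pic
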